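import Mathlib
import Pool.Agent.Y293.FA.Stm3

/-!
# Pairs of a pin and a point with a heavy tube
-/

namespace Pool.Agent.Y68.FA

open MeasureTheory Set Filter Topology Metric Pool.Agent.Y293.FA
open scoped ENNReal

theorem abs_sub_floor (k : ℕ) (t : ℝ) :
    |t - (⌊(2 : ℝ) ^ k * t⌋ : ℝ) / 2 ^ k| ≤ (2⁻¹ : ℝ) ^ k := by
  have h2 : (0 : ℝ) < 2 ^ k := by positivity
  have h3 := Int.floor_le ((2 : ℝ) ^ k * t)
  have h4 := Int.lt_floor_add_one ((2 : ℝ) ^ k * t)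
  have h5 : t - (⌊(2 : ℝ) ^ k * t⌋ : ℝ) / 2 ^ k =
      ((2 : ℝ) ^ k * t - ⌊(2 : ℝ) ^ k * t⌋) / 2 ^ k := by
    field_simp
  rw [h5, abs_div, abs_of_pos h2, inv_pow, ← one_div]
  refine div_le_div_of_nonneg_right ?_ h2.le
  rw [abs_of_nonneg (by linarith)]
  linarith

theorem norm_sub_yc (k : ℕ) (y : ℂ) : ‖y - yc k (qi k y)‖ ≤ 2 * (2⁻¹ : ℝ) ^ k := by
  refine (Complex.norm_le_abs_re_add_abs_im _).trans ?_
  have h1 := abs_sub_floor k y.re
  have h2 := abs_sub_floor k y.im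
  have h3 : (y - yc k (qi k y)).re = y.re - (⌊(2 : ℝ) ^ k * y.re⌋ : ℝ) / 2 ^ k := rfl
  have h4 : (y - yc k (qi k y)).im = y.im - (⌊(2 : ℝ) ^ k * y.im⌋ : ℝ) / 2 ^ k := rfl
  rw [h3, h4]
  linarith

/-- A point of the tube through `x` and `c` is in a wider tube through `x` and `y`, if `c` is near
to `y`. -/
theorem mem_tube {R κ l : ℝ} (hR : 0 < R) (hκ : 0 < κ) (hl : 0 < l) (hl1 : l ≤ 1) {x y c z : ℂ}
    (hx : ‖x‖ ≤ R) (hz : ‖z‖ ≤ R) (hxy : 2 * κ ≤ ‖y - x‖) (hc : ‖y - c‖ ≤ 2 * l)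
    (h : z ∈ tube (4 * R * l) x c) : z ∈ tube ((4 * R + 6 * R / κ + 1) * l) x y := by
  have h1 : |((z - x) * (starRingEnd ℂ) (c - x)).im| ≤ 4 * R * l * ‖c - x‖ := h
  change |((z - x) * (starRingEnd ℂ) (y - x)).im| ≤ (4 * R + 6 * R / κ + 1) * l * ‖y - x‖
  have h2 : (z - x) * (starRingEnd ℂ) (y - x) =
      (z - x) * (starRingEnd ℂ) (c - x) + (z - x) * (starRingEnd ℂ) (y - c) := by
    rw [← mul_add, ← map_add]
    congr 2
    ring
  have h3 : |((z - x) * (starRingEnd ℂ) (y - c)).im| ≤ 2 * R * (2 * l) := by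
    refine (Complex.abs_im_le_norm _).trans ?_
    rw [norm_mul, Complex.norm_conj]
    have h4 : ‖z - x‖ ≤ 2 * R := (norm_sub_le _ _).trans (by linarith)
    exact mul_le_mul h4 hc (norm_nonneg _) (by linarith)
  have h5 : ‖c - x‖ ≤ ‖y - x‖ + 2 * l := by
    have h6 : c - x = (y - x) - (y - c) := by ring
    rw [h6]
    exact (norm_sub_le _ _).trans (by linarith)
  rw [h2, Complex.add_im]
  refine (abs_add_le _ _).trans ?_
  have h7 : 12 * R * l ≤ 6 * R / κ * l * ‖y - x‖ := by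
    have h8 : 12 * R * l = 6 * R / κ * l * (2 * κ) := by
      field_simp
      ring
    rw [h8]
    exact mul_le_mul_of_nonneg_left hxy (by positivity)
  have h9 : 4 * R * l * ‖c - x‖ ≤ 4 * R * l * (‖y - x‖ + 2 * l) :=
    mul_le_mul_of_nonneg_left h5 (by positivity)
  have h10 : R * l * l ≤ R * l * 1 := mul_le_mul_of_nonneg_left hl1 (by positivity)
  have h11 : 0 ≤ l * ‖y - x‖ := by positivity
  nlinarith

theorem bt : S_RAD → S_BT := by
  intro hrad μ _ R C s ε κ hR hae hC hs hs2 hF hε hκ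
  have hR0 : 0 < R := by linarith
  have haeR : ∀ᵐ x ∂μ, ‖x‖ ≤ R := hae.mono fun x hx => by linarith
  obtain ⟨C₀, hC₀, c, hc, hmain⟩ := hrad μ R C s haeR hC hs hs2 hF
  set W : ℝ := 4 * R + 6 * R / κ + 1 with hW
  have hW0 : 0 < W := by positivity
  have e1 : Tendsto (fun k : ℕ => W * (2⁻¹ : ℝ) ^ k) atTop (𝓝 0) := by
    have := (tendsto_pow_atTop_nhds_zero_of_lt_one (r := (2⁻¹ : ℝ)) (by norm_num)
      (by norm_num)).const_mul W
    rwa [mul_zero] at this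
  have e2 : Tendsto (fun k : ℕ => (2 : ℝ) ^ (ε * k)) atTop atTop := by
    have h1 : (fun k : ℕ => (2 : ℝ) ^ (ε * k)) = fun k : ℕ => ((2 : ℝ) ^ ε) ^ k := by
      funext k
      rw [Real.rpow_mul (by norm_num), Real.rpow_natCast]
    rw [h1]
    exact tendsto_pow_atTop_atTop_of_one_lt (Real.one_lt_rpow (by norm_num) hε)
  obtain ⟨k₀, hk₀⟩ := eventually_atTop.1
    ((e1.eventually (ge_mem_nhds (show (0 : ℝ) < 1 by norm_num))).and (e2.eventually_ge_atTop W))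
  refine ⟨C₀ * W ^ c, (2 : ℝ) ^ (-(c * ε)), by positivity, by positivity,
    Real.rpow_lt_one_of_one_lt_of_neg (by norm_num) (by nlinarith), k₀, fun k hk => ?_⟩
  obtain ⟨hw1, hM⟩ := hk₀ k hk
  set l : ℝ := (2⁻¹ : ℝ) ^ k with hl
  have hl0 : 0 < l := by positivity
  have hl1 : l ≤ 1 := pow_le_one₀ (by norm_num) (by norm_num)
  have hM1 : 1 ≤ (2 : ℝ) ^ (ε * k) / W := by
    rw [le_div_iff₀ hW0, one_mul]
    exact hM
  have key := hmain (W * l) (by positivity) hw1 _ hM1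
  have e3 : (2 : ℝ) ^ (ε * k) / W * (W * l) = (2 : ℝ) ^ (ε * k) * l := by
    field_simp
  rw [e3] at key
  have e4 : C₀ * ((2 : ℝ) ^ (ε * k) / W) ^ (-c) = C₀ * W ^ c * ((2 : ℝ) ^ (-(c * ε))) ^ k := by
    have h1 : ((2 : ℝ) ^ (ε * k) / W) ^ (-c) = W ^ c * ((2 : ℝ) ^ (-(c * ε))) ^ k := by
      rw [Real.div_rpow (by positivity) hW0.le, ← Real.rpow_mul (by norm_num),
        Real.rpow_neg hW0.le, div_inv_eq_mul, ← Real.rpow_natCast, ← Real.rpow_mul (by norm_num),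
        mul_comm (W ^ c)]
      congr 2
      ring
    rw [h1, mul_assoc]
  rw [e4] at key
  refine le_trans (measure_mono_ae ?_) key
  have h1 : ∀ᵐ p ∂(μ.prod μ), ‖p.1‖ ≤ R := Measure.quasiMeasurePreserving_fst.ae haeR
  filter_upwards [h1] with p hp1 hp
  obtain ⟨hp2, hp3⟩ := hp
  refine lt_of_lt_of_le hp3 (measure_mono_ae ?_)
  filter_upwards [haeR] with z hz hz2
  exact mem_tube hR0 hκ hl0 hl1 hp1 hz hp2 (norm_sub_yc k p.2) hz2

end Pool.Agent.Y68.FA
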